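import Pool.Agent.helper7.PQ.Spec

set_option autoImplicit false

open Finset PowerSeries

noncomputable section

namespace Pool.Agent.PQ

open Pool.Agent.EP

theorem CHW_step (b t m : ℕ) (r : ℕ → ZMod 2) (U : ℕ) :
    chi b t m r (U + 1) = chi b t m r U + gG b t m r (U + 1) := by
  unfold chi
  rw [Finset.sum_range_succ]

theorem CHW_one (b t n₀ u₀ u : ℕ) (r : ℕ → ZMod 2) (ht : 0 < t) (hr : ∀ n, r (n + t) = r n)
    (hn : 0 < n₀) (h1 : r n₀ = 1) (hu : u₀.Coprime 6) (huu : u ≡ u₀ [MOD 24 * t]) :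
    gG b t (mm b n₀ u₀) r u = 1 := by
  have hper : Function.Periodic r t := hr
  have hc : u.Coprime 6 := by
    have h2 : u ≡ u₀ [MOD 6] := huu.of_dvd ⟨4 * t, by ring⟩
    unfold Nat.Coprime
    rw [Nat.ModEq.gcd_eq h2]
    exact hu
  unfold gG
  rw [if_pos hc]
  -- write the coefficient
  have hcoef : 24 * t * 2 ^ b - 2 ^ b = (24 * t - 1) * 2 ^ b := by
    rw [Nat.sub_mul, one_mul]
  rw [hcoef]
  set c := 24 * t - 1 with hc'
  have hct : c + 1 = 24 * t := by omega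
  have hm : mm b n₀ u₀ + c * 2 ^ b * u₀ ^ 2 + 1 = 24 * (n₀ + t * 2 ^ b * u₀ ^ 2) := by
    unfold mm
    have h3 : 24 * n₀ - 1 + 2 ^ b * u₀ ^ 2 + c * 2 ^ b * u₀ ^ 2 + 1 =
        24 * n₀ + (c + 1) * (2 ^ b * u₀ ^ 2) := by
      have h4 : c * 2 ^ b * u₀ ^ 2 = c * (2 ^ b * u₀ ^ 2) := by ring
      have h5 : (c + 1) * (2 ^ b * u₀ ^ 2) = c * (2 ^ b * u₀ ^ 2) + 2 ^ b * u₀ ^ 2 := by ring
      rw [h4, h5]
      omega
    rw [h3, hct]
    ring
  have hsq : u ^ 2 ≡ u₀ ^ 2 [MOD 24 * t] := huu.pow 2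
  have hN : mm b n₀ u₀ + c * 2 ^ b * u ^ 2 + 1 ≡ 24 * (n₀ + t * 2 ^ b * u₀ ^ 2) [MOD 24 * t] := by
    rw [← hm]
    exact ((hsq.mul_left _).add_left _).add_right _
  have hdiv : 24 ∣ mm b n₀ u₀ + c * 2 ^ b * u ^ 2 + 1 := by
    have h6 := hN.of_dvd (Dvd.intro t rfl)
    exact (Nat.modEq_zero_iff_dvd).1 (h6.trans ((Nat.modEq_zero_iff_dvd).2 (Dvd.intro _ rfl)))
  obtain ⟨q, hq⟩ := hdiv
  rw [hq, Nat.mul_div_cancel_left q (by norm_num)]
  rw [hq] at hN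
  have hq' : q ≡ n₀ + t * 2 ^ b * u₀ ^ 2 [MOD t] := Nat.ModEq.mul_left_cancel' (by norm_num) hN
  have hq2 : q ≡ n₀ [MOD t] := by
    refine hq'.trans ?_
    have h7 : n₀ + t * (2 ^ b * u₀ ^ 2) ≡ n₀ [MOD t] := by
      unfold Nat.ModEq
      rw [Nat.add_mul_mod_self_left]
    rw [← mul_assoc] at h7
    exact h7
  rw [← hper.map_mod_nat q, hq2, hper.map_mod_nat n₀, h1]

theorem CHW : CHW_stmt := by
  intro b t n₀ u₀ r ht hr hn h1 hu a e
  set u := a + 1 + (u₀ + (24 * t - 1) * (a + 1)) % (24 * t) with hudef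
  have hlt : (u₀ + (24 * t - 1) * (a + 1)) % (24 * t) < 24 * t := Nat.mod_lt _ (by omega)
  have huu : u ≡ u₀ [MOD 24 * t] := by
    have h2 : u ≡ a + 1 + (u₀ + (24 * t - 1) * (a + 1)) [MOD 24 * t] := by
      rw [hudef]
      exact (Nat.mod_modEq _ _).add_left _
    refine h2.trans ?_
    have h3 : a + 1 + (u₀ + (24 * t - 1) * (a + 1)) = u₀ + 24 * t * (a + 1) := by
      obtain ⟨c, hc⟩ : ∃ c, 24 * t = c + 1 := ⟨24 * t - 1, by omega⟩
      rw [hc, Nat.add_sub_cancel]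
      ring
    rw [h3]
    unfold Nat.ModEq
    rw [Nat.add_mul_mod_self_left]
  have hg := CHW_one b t n₀ u₀ u r ht hr hn h1 hu huu
  obtain ⟨v, hv⟩ : ∃ v, u = v + 1 := ⟨a + (u₀ + (24 * t - 1) * (a + 1)) % (24 * t), by omega⟩
  by_cases h : chi b t (mm b n₀ u₀) r v = e
  · refine ⟨u, ?_, ?_⟩
    · rw [Finset.mem_Ico]
      omega
    · rw [hv, CHW_step, h, ← hv, hg]
      intro h4
      have h5 : (1 : ZMod 2) = 0 := by
        have := congrArg (fun x => x - e) h4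
        simpa using this
      exact one_ne_zero h5
  · refine ⟨v, ?_, h⟩
    rw [Finset.mem_Ico]
    omega

end Pool.Agent.PQ
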